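import Pool.Agent.H89.U3.Stmts

/-!
# U3.CHA

A homomorphism from a finite group to the circle which stays at distance less than `1` from `1`
is trivial.
-/

namespace Pool.Agent.H20.U3

theorem cha_aux (H : Type) [AddCommGroup H] [Fintype H] (r : H → ℂ) (h1 : ∀ x, ‖r x‖ = 1)
    (hm : ∀ x y, r (x + y) = r x * r y) (hd : ∀ x, ‖r x - 1‖ < 1) (x : H) : r x = 1 := by
  have h0 : r 0 = 1 := by
    have h := hm 0 0
    rw [add_zero] at h
    have hne : r 0 ≠ 0 := by
      intro h0
      have := h1 0
      rw [h0, norm_zero] at this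
      exact zero_ne_one this
    have : r 0 * 1 = r 0 * r 0 := by rw [mul_one]; exact h
    exact (mul_left_cancel₀ hne this).symm
  have hp : ∀ k : ℕ, r (k • x) = r x ^ k := by
    intro k
    induction k with
    | zero => simp [h0]
    | succ k ih => rw [succ_nsmul, hm, ih, pow_succ]
  have hN : r x ^ Fintype.card H = 1 := by
    rw [← hp, card_nsmul_eq_zero, h0]
  by_contra hne
  have hs : ∑ k ∈ Finset.range (Fintype.card H), r x ^ k = 0 := by
    have h := geom_sum_mul (r x) (Fintype.card H)
    rw [hN, sub_self] at h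
    rcases mul_eq_zero.mp h with h | h
    · exact h
    · exact absurd (sub_eq_zero.mp h) hne
  have hre : ∀ k : ℕ, (0 : ℝ) < (r x ^ k).re := by
    intro k
    have h2 := hd (k • x)
    rw [hp k] at h2
    have h3 : ‖r x ^ k‖ = 1 := by rw [norm_pow, h1, one_pow]
    have h4 : |(r x ^ k - 1).re| ≤ ‖r x ^ k - 1‖ := Complex.abs_re_le_norm _
    rw [Complex.sub_re, Complex.one_re] at h4
    have h5 := (abs_lt.mp (lt_of_le_of_lt h4 h2)).1
    linarith
  have hpos : (0 : ℝ) < (∑ k ∈ Finset.range (Fintype.card H), r x ^ k).re := by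
    rw [Complex.re_sum]
    refine Finset.sum_pos (fun k _ => hre k) ?_
    rw [Finset.nonempty_range_iff]
    exact Fintype.card_ne_zero
  rw [hs, Complex.zero_re] at hpos
  exact lt_irrefl _ hpos

theorem CHA : Pool.Agent.H89.U3.S_CHA := cha_aux

end Pool.Agent.H20.U3
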